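import Mathlib
import Pool.Agent.Helper50.ETH.Defs
import Pool.Agent.Helper81.VCP.W4

/-!
# ETH-C3: assembly of the machine for 3SAT

The state is `(instance, ((c, P), (done, answer)))` with `P = 2 ^ c`. The loop stops at `c = B n`, then
the polynomial time function `ans` is called once with the budget `P = 2 ^ B n` (in unary).
-/

set_option autoImplicit false

namespace Pool.Agent.Helper33.ETH

open Pool.Agent.Helper36.PT Pool.Agent.Helper81.VCP Pool.Agent.Helper50.ETH

/-- Instances. -/
abbrev Inst := ℕ × List (List (Option Bool))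

/-- States of the loop. -/
abbrev StE := Inst × ((ℕ × ℕ) × (Bool × Bool))

/-- One round. -/
noncomputable def stp (B : ℕ → ℕ) (ans : Inst × ℕ → Bool) (s : StE) : StE :=
  bif s.2.2.1 then s
  else bif dec (B s.1.1 ≤ s.2.1.1) then (s.1, ((s.2.1.1, s.2.1.2), (true, ans (s.1, s.2.1.2))))
  else (s.1, ((s.2.1.1 + 1, 2 * s.2.1.2), (false, false)))

theorem stp_pt (B : ℕ → ℕ) (hB : PolyTime B) (ans : Inst × ℕ → Bool) (ha : PolyTime ans) :
    PolyTime (stp B ans) := by
  have h1 : PolyTime (fun s : StE => B s.1.1) := hB.comp (by fun_prop)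
  have h2 : PolyTime (fun s : StE => ans (s.1, s.2.1.2)) := ha.comp (by fun_prop)
  unfold stp
  fun_prop

theorem stp_iter (B : ℕ → ℕ) (ans : Inst × ℕ → Bool) (x : Inst) (j : ℕ) (hj : j ≤ B x.1) :
    (stp B ans)^[j] (x, ((0, 1), (false, false))) = (x, ((j, 2 ^ j), (false, false))) := by
  induction j with
  | zero => rfl
  | succ j ih =>
    rw [Function.iterate_succ_apply', ih (by omega)]
    have h : dec (B x.1 ≤ j) = false := by
      rw [Bool.eq_false_iff]
      intro h
      rw [dec_eq_true] at h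
      omega
    unfold stp
    simp only [h, cond_false]
    rw [pow_succ, mul_comm]

theorem stp_last (B : ℕ → ℕ) (ans : Inst × ℕ → Bool) (x : Inst) :
    (stp B ans)^[B x.1 + 1] (x, ((0, 1), (false, false))) =
      (x, ((B x.1, 2 ^ B x.1), (true, ans (x, 2 ^ B x.1)))) := by
  rw [Function.iterate_succ_apply', stp_iter B ans x _ le_rfl]
  have h : dec (B x.1 ≤ B x.1) = true := by
    rw [dec_eq_true]
  unfold stp
  simp only [h, cond_false, cond_true]

private theorem e_list {α : Type} [Enc α] (l : List α) :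
    esz l = (l.map fun x => 2 * esz x + 1).sum := by
  induction l with
  | nil => rfl
  | cons a l ih =>
    change (fr (enc a) ++ encL l).length = _
    rw [List.length_append, length_fr, List.map_cons, List.sum_cons, ← ih]
    rfl

private theorem e_pair {α β : Type} [Enc α] [Enc β] (a : α) (b : β) :
    esz (a, b) = 2 * esz a + 1 + esz b := by
  change (fr (enc a) ++ enc b).length = _
  rw [List.length_append, length_fr]
  rfl

private theorem e_nat (m : ℕ) : esz m = m := by
  change (List.replicate m true).length = m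
  rw [List.length_replicate]

private theorem e_list_le {α : Type} [Enc α] (l : List α) (b : ℕ) (h : ∀ x ∈ l, esz x ≤ b) :
    esz l ≤ l.length * (2 * b + 1) := by
  rw [e_list]
  induction l with
  | nil => simp
  | cons a l ih =>
    rw [List.map_cons, List.sum_cons, List.length_cons]
    have h1 := ih fun x hx => h x (List.mem_cons_of_mem _ hx)
    have h2 := h a List.mem_cons_self
    have h3 : (l.length + 1) * (2 * b + 1) = l.length * (2 * b + 1) + (2 * b + 1) := by ring
    omega

private theorem e_opt (o : Option Bool) : esz o ≤ 2 := by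
  cases o with
  | none => exact Nat.zero_le _
  | some b => exact le_rfl

theorem esz_inst {n : ℕ} (φ : List (Fin n → Option Bool)) :
    esz ((n, φ.map List.ofFn) : Inst) ≤ 2 * n + 1 + φ.length * (10 * n + 1) := by
  rw [e_pair, e_nat]
  have h : esz (φ.map List.ofFn : List (List (Option Bool))) ≤
      (φ.map List.ofFn : List (List (Option Bool))).length * (2 * (n * (2 * 2 + 1)) + 1) := by
    apply e_list_le
    intro x hx
    obtain ⟨c, -, rfl⟩ := List.mem_map.1 hx
    have h1 := e_list_le (List.ofFn c) 2 fun o _ => e_opt o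
    rwa [List.length_ofFn] at h1
  rw [List.length_map] at h
  have h2 : 2 * (n * (2 * 2 + 1)) + 1 = 10 * n + 1 := by ring
  rw [h2] at h
  omega

theorem esz_stE (x : Inst) (c P : ℕ) (d a : Bool) :
    esz ((x, ((c, P), (d, a))) : StE) = 2 * esz x + 4 * c + 2 * P + 8 := by
  rw [e_pair x, e_pair (c, P), e_pair c P, e_pair d a, e_nat c, e_nat P]
  have h1 : esz d = 1 := rfl
  have h2 : esz a = 1 := rfl
  rw [h1, h2]
  ring

theorem length_code {n : ℕ} (φ : List (Fin n → Option Bool)) :
    (code φ).length = (n + 1) * (φ.length + 1) := by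
  unfold code
  rw [List.length_append, List.length_append, List.length_replicate, List.length_singleton,
    List.length_flatten, List.map_map]
  have h : (φ.map (List.length ∘ fun c => some true :: List.ofFn c)) =
      List.replicate φ.length (n + 1) := by
    rw [List.eq_replicate_iff]
    refine ⟨List.length_map _, fun b hb => ?_⟩
    obtain ⟨c, -, rfl⟩ := List.mem_map.1 hb
    simp
  rw [h, List.sum_replicate, smul_eq_mul]
  ring

theorem arith (n m b c : ℕ) :
    ((n + 1) * (m + 1) + 1 + (b + 1) +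
      (2 * (2 * n + 1 + m * (10 * n + 1)) + 4 * b + 2 * 2 ^ b + 8) + 2) ^ c ≤
      (n + m + 2) ^ (8 * c) * 2 ^ (8 * c * b) := by
  have hb : b ≤ 2 ^ b := Nat.lt_two_pow_self.le
  have hU : 1 ≤ 2 ^ b := Nat.one_le_two_pow
  generalize hUe : 2 ^ b = U at hb hU
  have hT : 4 ≤ (n + m + 2) ^ 2 := by
    calc 4 = 2 ^ 2 := by norm_num
      _ ≤ (n + m + 2) ^ 2 := Nat.pow_le_pow_left (by omega) 2
  have h1 : (n + 1) * (m + 1) + 1 + (b + 1) +
      (2 * (2 * n + 1 + m * (10 * n + 1)) + 4 * b + 2 * U + 8) + 2 ≤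
      64 * ((n + m + 2) ^ 2 * U) := by
    have h2 : (n + 1) * (m + 1) + (4 * n + 2 + 20 * (m * n) + 2 * m) + 12 ≤
        40 * (n + m + 2) ^ 2 := by nlinarith
    have h3 : 40 * (n + m + 2) ^ 2 + 7 * U ≤ 64 * ((n + m + 2) ^ 2 * U) := by
      generalize (n + m + 2) ^ 2 = T at hT
      have h4 : T ≤ T * U := Nat.le_mul_of_pos_right _ (by omega)
      have h5 : 4 * U ≤ T * U := Nat.mul_le_mul_right _ hT
      omega
    have h4 : 2 * (2 * n + 1 + m * (10 * n + 1)) = 4 * n + 2 + 20 * (m * n) + 2 * m := by ring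
    omega
  have h5 : 64 * ((n + m + 2) ^ 2 * U) ≤ (n + m + 2) ^ 8 * U := by
    have h6 : 64 ≤ (n + m + 2) ^ 6 := by
      calc 64 = 2 ^ 6 := by norm_num
        _ ≤ (n + m + 2) ^ 6 := Nat.pow_le_pow_left (by omega) 6
    calc 64 * ((n + m + 2) ^ 2 * U) ≤ (n + m + 2) ^ 6 * ((n + m + 2) ^ 2 * U) :=
          Nat.mul_le_mul_right _ h6
      _ = (n + m + 2) ^ 8 * U := by ring
  calc _ ≤ ((n + m + 2) ^ 8 * U) ^ c := Nat.pow_le_pow_left (h1.trans h5) c
    _ = (n + m + 2) ^ (8 * c) * 2 ^ (b * c) := by
        rw [mul_pow, ← pow_mul, ← hUe, ← pow_mul]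
    _ ≤ (n + m + 2) ^ (8 * c) * 2 ^ (8 * c * b) := by
        apply Nat.mul_le_mul_left
        apply Nat.pow_le_pow_right (by norm_num)
        nlinarith [Nat.zero_le (c * b)]

/-- **Assembly.** -/
theorem assemble (B : ℕ → ℕ) (hB : PolyTime B) (prs : Word → Inst) (hp : PolyTime prs)
    (hps : ∀ (n : ℕ) (φ : List (Fin n → Option Bool)),
      prs ⟨(code φ).flatMap cod⟩ = (n, φ.map List.ofFn))
    (ans : Inst × ℕ → Bool) (ha : PolyTime ans)
    (hc : ∀ (n : ℕ) (φ : List (Fin n → Option Bool)), Width3 φ →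
      (ans ((n, φ.map List.ofFn), 2 ^ B n) = true ↔ Sat φ)) :
    ∃ tm : Turing.FinTM2, ∃ eIn : tm.Γ tm.k₀ ≃ Option Bool, ∃ eOut : tm.Γ tm.k₁ ≃ Option Bool,
      ∃ C : ℕ, ∀ (n : ℕ) (φ : List (Fin n → Option Bool)), Width3 φ →
        Nonempty (Turing.EvalsToInTime tm.step
          (Turing.initList tm (List.map (fun b : Option Bool => eIn.symm b) (code φ)))
          (some (Turing.haltList tm
            (List.map (fun b : Option Bool => eOut.symm b) [some (dec (Sat φ))])))
          ((n + φ.length + 2) ^ C * 2 ^ (C * B n))) := by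
  obtain ⟨tm, eIn, eOut, c, hm⟩ :=
    loop_machine (fun w => ((prs w, ((0, 1), (false, false))) : StE)) (stp B ans)
      (fun s => s.2.2.1) (fun s => (⟨[true, s.2.2.2]⟩ : Word))
      (by fun_prop) (stp_pt B hB ans ha) (by fun_prop) (by fun_prop)
  refine ⟨tm, eIn, eOut, 8 * c, fun n φ hw => ?_⟩
  have hans : ans ((n, φ.map List.ofFn), 2 ^ B n) = dec (Sat φ) := by
    rw [Bool.eq_iff_iff, dec_eq_true]
    exact hc n φ hw
  have hit := stp_iter B ans (n, φ.map List.ofFn)
  have hla := stp_last B ans (n, φ.map List.ofFn)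
  rw [hans] at hla
  dsimp only at hit hla
  obtain ⟨tr⟩ := hm (code φ) [some (dec (Sat φ))] (B n + 1)
    (2 * (2 * n + 1 + φ.length * (10 * n + 1)) + 4 * B n + 2 * 2 ^ B n + 8)
    (by
      intro j hj
      rw [hps, hit j (by omega)])
    (by rw [hps, hla])
    (by
      rw [hps, hla]
      simp [cod])
    (by
      intro j hj
      have hin := esz_inst φ
      rcases Nat.lt_or_ge j (B n + 1) with h | h
      · rw [hps, hit j (by omega), esz_stE]
        have : 2 ^ j ≤ 2 ^ B n := Nat.pow_le_pow_right (by norm_num) (by omega)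
        omega
      · have : j = B n + 1 := by omega
        subst this
        rw [hps, hla, esz_stE]
        omega)
  have hbound : ((code φ).length + [some (dec (Sat φ))].length + (B n + 1) +
      (2 * (2 * n + 1 + φ.length * (10 * n + 1)) + 4 * B n + 2 * 2 ^ B n + 8) + 2) ^ c ≤
      (n + φ.length + 2) ^ (8 * c) * 2 ^ (8 * c * B n) := by
    rw [length_code]
    exact arith n φ.length (B n) c
  exact ⟨{ tr with steps_le_m := tr.steps_le_m.trans hbound }⟩

end Pool.Agent.Helper33.ETH
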