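import Mathlib
import Pool.Agent.Helper33.ETH.Assemble
import Pool.Agent.Helper64.ETH.Glue
import Pool.Agent.Helper68.ETH.Word
import Pool.Agent.Helper68.PT.Ext2

/-!
# ETH: the machine for 3SAT from a dualization machine

`main_T`: everything that is specific (parser, word of the hypergraph, clock, kap, output test,
correctness of the reduction) is a hypothesis here.
-/

set_option autoImplicit false

namespace Pool.Agent.Helper33.ETH

open Pool.Agent.Helper36.PT Pool.Agent.Helper81.VCP Pool.Agent.Helper50.ETH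
open Pool.Agent.Helper64.ETH

/-- The answer for the instance `x.1` with the budget `x.2`. -/
noncomputable def ansOf (wordT : Inst × ℕ → List (Option Bool))
    (ck : List (Option Bool) → ℕ → Option (List (Option Bool))) (x : Inst × ℕ) : Bool :=
  verdict (2 * kap x.1.1) (ck (wordT x) x.2)

theorem ansOf_pt (hk : PolyTime kap)
    (hbig : PolyTime (fun p : ℕ × List (Option Bool) => bigRow p.1 p.2))
    (wordT : Inst × ℕ → List (Option Bool)) (hw : PolyTime wordT)
    (ck : List (Option Bool) → ℕ → Option (List (Option Bool)))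
    (hck : PolyTime (fun p : List (Option Bool) × ℕ => ck p.1 p.2)) :
    PolyTime (ansOf wordT ck) := by
  have h1 : PolyTime (fun x : Inst × ℕ => ck (wordT x) x.2) :=
    hck.comp (hw.pair (by fun_prop : PolyTime (fun x : Inst × ℕ => x.2)))
  have h2 : PolyTime (fun p : (Inst × ℕ) × List (Option Bool) => bigRow (2 * kap p.1.1.1) p.2) := by
    have h3 : PolyTime (fun p : (Inst × ℕ) × List (Option Bool) => 2 * kap p.1.1.1) := by
      have h4 : PolyTime (fun p : (Inst × ℕ) × List (Option Bool) => kap p.1.1.1) :=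
        hk.comp (by fun_prop)
      fun_prop
    exact hbig.comp (h3.pair (by fun_prop : PolyTime (fun p : (Inst × ℕ) × List (Option Bool) => p.2)))
  have h := PolyTime.optCases (o := fun x : Inst × ℕ => ck (wordT x) x.2)
    (f := fun _ => true) (g := fun (x : Inst × ℕ) (u : List (Option Bool)) =>
      bigRow (2 * kap x.1.1) u) h1 (by fun_prop) h2
  refine h.congr fun x => ?_
  unfold ansOf verdict
  generalize ck (wordT x) x.2 = o
  cases o <;> rfl

theorem main_T {T : ℕ → ℕ} (hT : Monotone T) {tm : Turing.FinTM2}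
    {eIn : tm.Γ tm.k₀ ≃ Option Bool} {eOut : tm.Γ tm.k₁ ≃ Option Bool} (hD : Dual tm eIn eOut T)
    (B : ℕ → ℕ) (hB : PolyTime B) (hb : ∀ n, bound n ≤ 2 ^ B n) (hTB : ∀ n, T (bound n) ≤ 2 ^ B n)
    (prs : Word → Inst) (hp : PolyTime prs)
    (hps : ∀ (n : ℕ) (φ : List (Fin n → Option Bool)),
      prs ⟨(code φ).flatMap cod⟩ = (n, φ.map List.ofFn))
    (wordT : Inst × ℕ → List (Option Bool)) (hw : PolyTime wordT)
    (hws : ∀ (n : ℕ) (cl : List (List (Option Bool))) (P : ℕ), bound n ≤ P →
      wordT ((n, cl), P) = word n cl)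
    (ck : List (Option Bool) → ℕ → Option (List (Option Bool))) (hck : ClockSpec tm eIn eOut ck)
    (hckp : PolyTime (fun p : List (Option Bool) × ℕ => ck p.1 p.2))
    (hk : PolyTime kap) (hbig : PolyTime (fun p : ℕ × List (Option Bool) => bigRow p.1 p.2))
    (hinst : ∀ (n : ℕ) (φ : List (Fin n → Option Bool)), Width3 φ →
      ((∃ T : Finset (Fin (nV n)),
        Minimal (fun S : Finset (Fin (nV n)) =>
          ∀ e ∈ Pool.Agent.Helper68.ETH.EE n (φ.map List.ofFn), (S ∩ e).Nonempty) T ∧
          2 * kap n < T.card) ↔ Sat φ)) :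
    ∃ tm : Turing.FinTM2, ∃ eIn : tm.Γ tm.k₀ ≃ Option Bool, ∃ eOut : tm.Γ tm.k₁ ≃ Option Bool,
      ∃ C : ℕ, ∀ (n : ℕ) (φ : List (Fin n → Option Bool)), Width3 φ →
        Nonempty (Turing.EvalsToInTime tm.step
          (Turing.initList tm (List.map (fun b : Option Bool => eIn.symm b) (code φ)))
          (some (Turing.haltList tm
            (List.map (fun b : Option Bool => eOut.symm b) [some (dec (Sat φ))])))
          ((n + φ.length + 2) ^ C * 2 ^ (C * B n))) := by
  refine assemble B hB prs hp hps (ansOf wordT ck) (ansOf_pt hk hbig wordT hw ck hckp) ?_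
  intro n φ hφ
  unfold ansOf
  dsimp only
  rw [hws n _ _ (hb n)]
  have he : word n (φ.map List.ofFn) =
      inCode (nV n) (Pool.Agent.Helper68.ETH.EE n (φ.map List.ofFn)) :=
    Pool.Agent.Helper68.ETH.word_eq n _
  rw [he]
  refine (glue hD hT hck _ (s := 2 * kap n) ?_).trans (hinst n φ hφ)
  refine (hT ?_).trans (hTB n)
  rw [length_inCode, Pool.Agent.Helper68.ETH.EE_length]
  unfold bound
  have h1 : (nV n + 1) ^ (2 * kap n + 1) ≤ (nV n + 1) ^ (2 * kap n + 2) :=
    Nat.pow_le_pow_right (by omega) (by omega)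
  have h2 : (nE n + 1) * (nV n + 1) = nV n + 1 + nE n * (nV n + 1) := by ring
  omega

end Pool.Agent.Helper33.ETH
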