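import Mathlib
import Pool.Agent.Helper33.ETH.MainT
import Pool.Agent.Helper50.ETH.Clock
import Pool.Agent.Helper64.ETH.Test
import Pool.Agent.Helper25.ETH.Inst
import Pool.Agent.Helper85.ETH.Hash
import Pool.Agent.Helper16.ETH.Params
import Pool.Agent.Helper67.ETH.Arith

/-!
# ETH: the theorem

`eth_final`: the remaining polynomial time functions (budget, parser, input word, kap) are hypotheses.
-/

set_option autoImplicit false

namespace Pool.Agent.Helper33.ETH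

open Pool.Agent.Helper36.PT Pool.Agent.Helper81.VCP Pool.Agent.Helper50.ETH
open Pool.Agent.Helper64.ETH Pool.Agent.Helper67.ETH

theorem EE_eq_fam (n : ℕ) (cl : List (List (Option Bool))) :
    Pool.Agent.Helper68.ETH.EE n cl = Pool.Agent.Helper25.ETH.fam n cl := by
  classical
  unfold Pool.Agent.Helper68.ETH.EE Pool.Agent.Helper25.ETH.fam
  apply List.map_congr_left
  intro e _
  ext v
  rw [Pool.Agent.Helper68.ETH.mem_edge]
  simp

/-- Correctness of the reduction. -/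
theorem inst_iff (n : ℕ) (φ : List (Fin n → Option Bool)) (hφ : Width3 φ) :
    (∃ T : Finset (Fin (nV n)),
      Minimal (fun S : Finset (Fin (nV n)) =>
        ∀ e ∈ Pool.Agent.Helper68.ETH.EE n (φ.map List.ofFn), (S ∩ e).Nonempty) T ∧
        2 * kap n < T.card) ↔ Sat φ := by
  rw [EE_eq_fam]
  have hD := Pool.Agent.Helper16.ETH.DD_pos n
  constructor
  · rintro ⟨T, hT, hc⟩
    rcases Pool.Agent.Helper25.ETH.inst_small
      (fun a b ha hb hab P hP => Pool.Agent.Helper85.ETH.hash_coll ha hb hab P hP)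
      (Pool.Agent.Helper16.ETH.kap_pos n) (Pool.Agent.Helper16.ETH.le_DD_mul n) (by omega)
      (Pool.Agent.Helper16.ETH.qq_pos n) φ hφ T hT with h | h
    · omega
    · exact h
  · intro hS
    obtain ⟨T, hT, hc⟩ := Pool.Agent.Helper25.ETH.inst_big (Pool.Agent.Helper16.ETH.gg_pos n)
      (by omega) (Pool.Agent.Helper16.ETH.qq_pos n) φ hS
    refine ⟨T, hT, ?_⟩
    rw [hc]
    exact Pool.Agent.Helper16.ETH.two_kap_lt n

/-- From an arbitrary time bound. -/
theorem eth_T {T : ℕ → ℕ} (hT : Monotone T) {tm : Turing.FinTM2}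
    {eIn : tm.Γ tm.k₀ ≃ Option Bool} {eOut : tm.Γ tm.k₁ ≃ Option Bool} (hD : Dual tm eIn eOut T)
    (B : ℕ → ℕ) (hB : PolyTime B) (hb : ∀ n, bound n ≤ 2 ^ B n) (hTB : ∀ n, T (bound n) ≤ 2 ^ B n)
    (prs : Word → Inst) (hp : PolyTime prs)
    (hps : ∀ (n : ℕ) (φ : List (Fin n → Option Bool)),
      prs ⟨(code φ).flatMap cod⟩ = (n, φ.map List.ofFn))
    (wordT : Inst × ℕ → List (Option Bool)) (hw : PolyTime wordT)
    (hws : ∀ (n : ℕ) (cl : List (List (Option Bool))) (P : ℕ), bound n ≤ P →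
      wordT ((n, cl), P) = word n cl)
    (hk : PolyTime kap) :
    ∃ tm : Turing.FinTM2, ∃ eIn : tm.Γ tm.k₀ ≃ Option Bool, ∃ eOut : tm.Γ tm.k₁ ≃ Option Bool,
      ∃ C : ℕ, ∀ (n : ℕ) (φ : List (Fin n → Option Bool)), Width3 φ →
        Nonempty (Turing.EvalsToInTime tm.step
          (Turing.initList tm (List.map (fun b : Option Bool => eIn.symm b) (code φ)))
          (some (Turing.haltList tm
            (List.map (fun b : Option Bool => eOut.symm b) [some (dec (Sat φ))])))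
          ((n + φ.length + 2) ^ C * 2 ^ (C * B n))) :=
  main_T hT hD B hB hb hTB prs hp hps wordT hw hws (clock tm eIn eOut)
    (fun u v s t h => clock_spec tm eIn eOut u v s h t) (clock_pt tm eIn eOut) hk
    (bigRow_pt (by fun_prop) (by fun_prop)) inst_iff

/-- **The theorem** (see `Results/MP_bca398_lc/EthHard.lean`). -/
theorem eth_final
    (hbud : ∀ C a b : ℕ, 0 < b → PolyTime (fun n : ℕ => C * (rootUp b (n ^ a) + 1)))
    (prs : Word → Inst) (hp : PolyTime prs)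
    (hps : ∀ (n : ℕ) (φ : List (Fin n → Option Bool)),
      prs ⟨(code φ).flatMap cod⟩ = (n, φ.map List.ofFn))
    (wordT : Inst × ℕ → List (Option Bool)) (hw : PolyTime wordT)
    (hws : ∀ (n : ℕ) (cl : List (List (Option Bool))) (P : ℕ), bound n ≤ P →
      wordT ((n, cl), P) = word n cl)
    (hk : PolyTime kap)
    (α β : ℝ) (hα0 : 0 ≤ α) (hα : α < 1 / 2) (hβ : 2 / 3 * (1 + α) < β)
    {tm : Turing.FinTM2} {eIn : tm.Γ tm.k₀ ≃ Option Bool} {eOut : tm.Γ tm.k₁ ≃ Option Bool} (c : ℕ)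
    (hD : Dual tm eIn eOut (fun N =>
      (N + 2) ^ (c * (1 + ⌊((Nat.log 2 (N + 2) : ℕ) : ℝ) ^ α⌋₊)))) :
    ∃ tm : Turing.FinTM2, ∃ eIn : tm.Γ tm.k₀ ≃ Option Bool, ∃ eOut : tm.Γ tm.k₁ ≃ Option Bool,
      ∃ C : ℕ, ∀ (n : ℕ) (φ : List (Fin n → Option Bool)), Width3 φ →
        Nonempty (Turing.EvalsToInTime tm.step
          (Turing.initList tm (List.map (fun b : Option Bool => eIn.symm b) (code φ)))
          (some (Turing.haltList tm
            (List.map (fun b : Option Bool => eOut.symm b) [some (dec (Sat φ))])))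
          ((n + φ.length + 2) ^ C * 2 ^ (C * ⌈(n : ℝ) ^ β⌉₊))) := by
  have heps0 : 0 < 1 / 2 - α := by linarith
  have heps1 : 1 / 2 - α ≤ 1 / 2 := by linarith
  obtain ⟨a, b, -, hb0, hab, -, hroot⟩ := f2 (eps := 1 / 2 - α) (δ := 1 - β) heps1 (by linarith)
  have hN : ∀ n, bound n + 2 ≤ 2 ^ (32 * (kap n ^ 2 * (Nat.log 2 (kap n) + 1))) := by
    intro n
    have h1 := Pool.Agent.Helper16.ETH.bound_le' n
    have h2 : 1 ≤ kap n ^ 2 * (Nat.log 2 (kap n) + 1) :=
      Nat.mul_pos (pow_pos (Pool.Agent.Helper16.ETH.kap_pos n) 2) (Nat.succ_pos _)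
    generalize kap n ^ 2 * (Nat.log 2 (kap n) + 1) = X at h1 h2
    have h3 : 2 ^ (32 * X) = 2 ^ (30 * X) * 2 ^ (2 * X) := by
      rw [← pow_add]
      congr 1
      ring
    have h4 : 4 ≤ 2 ^ (2 * X) := by
      calc 4 = 2 ^ 2 := by norm_num
        _ ≤ 2 ^ (2 * X) := Nat.pow_le_pow_right (by norm_num) (by omega)
    have h5 : 1 ≤ 2 ^ (30 * X) := Nat.one_le_two_pow
    rw [h3]
    nlinarith
  obtain ⟨C1, hC1⟩ := f1 heps0 heps1 hb0 hab (c + 1) 32 128 kap (fun n => bound n + 2)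
    Pool.Agent.Helper16.ETH.kap_cube_le' hN
  have hTeq : ∀ N, Tf (1 / 2 - α) (c + 1) (N + 2) =
      (N + 2) ^ ((c + 1) * (1 + ⌊((Nat.log 2 (N + 2) : ℕ) : ℝ) ^ α⌋₊)) := by
    intro N
    unfold Tf
    rw [sub_sub_cancel]
  have hmono : Monotone (fun N => Tf (1 / 2 - α) (c + 1) (N + 2)) := fun x y h =>
    Tf_mono heps1 _ (by omega)
  have hD' : Dual tm eIn eOut (fun N => Tf (1 / 2 - α) (c + 1) (N + 2)) := by
    intro n E
    obtain ⟨L, h1, h2, ⟨tr⟩⟩ := hD n E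
    refine ⟨L, h1, h2, ⟨{ tr with steps_le_m := tr.steps_le_m.trans ?_ }⟩⟩
    dsimp only
    rw [hTeq]
    apply Nat.pow_le_pow_right (by omega)
    exact Nat.mul_le_mul_right _ (by omega)
  obtain ⟨tm', eIn', eOut', C, hC⟩ := eth_T hmono hD' (fun n => C1 * (rootUp b (n ^ a) + 1))
    (hbud C1 a b hb0)
    (fun n => by
      have h1 := le_Tf (eps := 1 / 2 - α) (c := c + 1) (by omega) (bound n + 2)
      have h2 := hC1 n
      exact (Nat.le_add_right _ 2).trans (h1.trans h2))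
    hC1 prs hp hps wordT hw hws hk
  refine ⟨tm', eIn', eOut', C + C * C1, fun n φ hφ => ?_⟩
  obtain ⟨tr⟩ := hC n φ hφ
  refine ⟨{ tr with steps_le_m := tr.steps_le_m.trans ?_ }⟩
  have h1 : 2 ^ (C * (C1 * (rootUp b (n ^ a) + 1))) ≤
      2 ^ (C * C1) * 2 ^ ((C + C * C1) * ⌈(n : ℝ) ^ β⌉₊) := by
    rw [← pow_add]
    apply Nat.pow_le_pow_right (by norm_num)
    have h2 := hroot n
    rw [sub_sub_cancel] at h2
    have h3 : C * (C1 * (rootUp b (n ^ a) + 1)) = C * C1 + C * C1 * rootUp b (n ^ a) := by ring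
    rw [h3]
    apply Nat.add_le_add_left
    exact Nat.mul_le_mul (by omega) h2
  have h4 : 2 ^ (C * C1) ≤ (n + φ.length + 2) ^ (C * C1) := Nat.pow_le_pow_left (by omega) _
  calc (n + φ.length + 2) ^ C * 2 ^ (C * (C1 * (rootUp b (n ^ a) + 1)))
      ≤ (n + φ.length + 2) ^ C * (2 ^ (C * C1) * 2 ^ ((C + C * C1) * ⌈(n : ℝ) ^ β⌉₊)) :=
        Nat.mul_le_mul_left _ h1
    _ ≤ (n + φ.length + 2) ^ C *
        ((n + φ.length + 2) ^ (C * C1) * 2 ^ ((C + C * C1) * ⌈(n : ℝ) ^ β⌉₊)) :=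
        Nat.mul_le_mul_left _ (Nat.mul_le_mul_right _ h4)
    _ = (n + φ.length + 2) ^ (C + C * C1) * 2 ^ ((C + C * C1) * ⌈(n : ℝ) ^ β⌉₊) := by
        rw [pow_add]
        ring

end Pool.Agent.Helper33.ETH
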